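import Mathlib

/-!
# AZ/ANU: two-sided bounds for the area of an annulus (for helper228); the part over Mathlib
-/

set_option autoImplicit false

open Metric MeasureTheory Set Filter Topology

noncomputable section

namespace Pool.Agent.N9.AZ.AnuM

/-- the area of the annulus, exactly -/
theorem area {n : ℕ} (hn : 2 ≤ n) {a b : ℝ} (ha0 : 0 < a) (hab : a ≤ b) :
    ∃ R r : ℝ, 0 < r ∧ 0 < R ∧
      R = Real.exp (1 / ((n : ℝ) - 1) * Real.log (b / n)) ∧
      r = Real.exp (1 / ((n : ℝ) - 1) * Real.log (a / n)) ∧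
      volume {c : ℂ | a ≤ (n : ℝ) * ‖c‖ ^ (n - 1) ∧ (n : ℝ) * ‖c‖ ^ (n - 1) ≤ b} =
        ENNReal.ofReal (Real.pi * (R ^ 2 - r ^ 2)) := by
  have hn' : (2 : ℝ) ≤ n := by exact_mod_cast hn
  have hn0 : (0 : ℝ) < n := by linarith
  have hn1 : (0 : ℝ) < (n : ℝ) - 1 := by linarith
  have hcast : ((n - 1 : ℕ) : ℝ) = (n : ℝ) - 1 := by
    rw [Nat.cast_sub (by omega), Nat.cast_one]
  have hb0 : 0 < b := by linarith
  obtain ⟨e, he⟩ : ∃ e : ℝ, e = 1 / ((n : ℝ) - 1) := ⟨_, rfl⟩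
  have he0 : 0 < e := by rw [he]; positivity
  obtain ⟨R, hR⟩ : ∃ R : ℝ, R = (b / n) ^ e := ⟨_, rfl⟩
  obtain ⟨r, hr⟩ : ∃ r : ℝ, r = (a / n) ^ e := ⟨_, rfl⟩
  have hR0 : 0 < R := by rw [hR]; exact Real.rpow_pos_of_pos (by positivity) _
  have hr0 : 0 < r := by rw [hr]; exact Real.rpow_pos_of_pos (by positivity) _
  have hRpow : R ^ (n - 1) = b / n := by
    rw [hR, ← Real.rpow_natCast, ← Real.rpow_mul (by positivity), hcast, he,
      one_div_mul_cancel hn1.ne', Real.rpow_one]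
  have hrpow : r ^ (n - 1) = a / n := by
    rw [hr, ← Real.rpow_natCast, ← Real.rpow_mul (by positivity), hcast, he,
      one_div_mul_cancel hn1.ne', Real.rpow_one]
  have hrR : r ≤ R := by
    rw [hr, hR]
    apply Real.rpow_le_rpow (by positivity) _ he0.le
    exact div_le_div_of_nonneg_right hab hn0.le
  have hne : n - 1 ≠ 0 := by omega
  have hset : {c : ℂ | a ≤ (n : ℝ) * ‖c‖ ^ (n - 1) ∧ (n : ℝ) * ‖c‖ ^ (n - 1) ≤ b} =
      closedBall (0:ℂ) R \ ball 0 r := by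
    ext c
    rw [mem_ofPred_eq, Set.mem_sdiff, mem_closedBall, mem_ball, dist_zero_right, not_lt]
    have h1 : a ≤ (n : ℝ) * ‖c‖ ^ (n - 1) ↔ r ≤ ‖c‖ := by
      rw [← pow_le_pow_iff_left₀ hr0.le (norm_nonneg c) hne, hrpow, div_le_iff₀ hn0, mul_comm]
    have h2 : (n : ℝ) * ‖c‖ ^ (n - 1) ≤ b ↔ ‖c‖ ≤ R := by
      rw [← pow_le_pow_iff_left₀ (norm_nonneg c) hR0.le hne, hRpow, le_div_iff₀ hn0, mul_comm]
    rw [h1, h2, and_comm]
  refine ⟨R, r, hr0, hR0, ?_, ?_, ?_⟩
  · rw [hR, Real.rpow_def_of_pos (by positivity), ← he, mul_comm]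
  · rw [hr, Real.rpow_def_of_pos (by positivity), ← he, mul_comm]
  rw [hset]
  have hbsub : ball (0 : ℂ) r ⊆ closedBall 0 R :=
    ball_subset_closedBall.trans (closedBall_subset_closedBall hrR)
  rw [measure_sdiff hbsub measurableSet_ball.nullMeasurableSet measure_ball_lt_top.ne,
    Complex.volume_closedBall, Complex.volume_ball]
  have hpi : ((NNReal.pi : NNReal) : ENNReal) = ENNReal.ofReal Real.pi := by
    rw [← NNReal.coe_real_pi, ENNReal.ofReal_coe_nnreal]
  rw [hpi, ← ENNReal.ofReal_pow hR0.le, ← ENNReal.ofReal_pow hr0.le,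
    ← ENNReal.ofReal_mul (by positivity), ← ENNReal.ofReal_mul (by positivity),
    ← ENNReal.ofReal_sub _ (by positivity)]
  congr 1
  ring

theorem tendsto_e : Tendsto (fun n : ℕ => 1 / ((n : ℝ) - 1)) atTop (𝓝 0) := by
  have h1 : Tendsto (fun n : ℕ => (n : ℝ) - 1) atTop atTop :=
    tendsto_atTop_add_const_right _ _ tendsto_natCast_atTop_atTop
  have h2 := h1.inv_tendsto_atTop
  refine h2.congr' (Eventually.of_forall fun n => ?_)
  show ((n : ℝ) - 1)⁻¹ = 1 / ((n : ℝ) - 1)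
  rw [one_div]

theorem tendsto_ne : Tendsto (fun n : ℕ => (n : ℝ) * (1 / ((n : ℝ) - 1))) atTop (𝓝 1) := by
  have h1 : Tendsto (fun n : ℕ => 1 + 1 / ((n : ℝ) - 1)) atTop (𝓝 (1 + 0)) :=
    tendsto_const_nhds.add tendsto_e
  rw [add_zero] at h1
  refine h1.congr' ?_
  filter_upwards [eventually_ge_atTop 2] with n hn
  have hn' : (2 : ℝ) ≤ n := by exact_mod_cast hn
  have hn1 : (n : ℝ) - 1 ≠ 0 := by
    have : (0 : ℝ) < (n : ℝ) - 1 := by linarith
    exact this.ne'
  field_simp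
  ring

theorem tendsto_elog : Tendsto (fun n : ℕ => 1 / ((n : ℝ) - 1) * Real.log (3 * n)) atTop
    (𝓝 0) := by
  have h0 : Tendsto (fun n : ℕ => (n : ℝ)) atTop atTop := tendsto_natCast_atTop_atTop
  have h1 : Tendsto (fun n : ℕ => Real.log (n : ℝ) / n) atTop (𝓝 0) := by
    have := Real.isLittleO_log_id_atTop.tendsto_div_nhds_zero
    exact this.comp h0
  have h2 : Tendsto (fun n : ℕ => Real.log 3 / (n : ℝ)) atTop (𝓝 0) :=
    tendsto_const_nhds.div_atTop h0
  have h3 := (h1.add h2).mul tendsto_ne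
  rw [add_zero, zero_mul] at h3
  refine h3.congr' ?_
  filter_upwards [eventually_ge_atTop 2] with n hn
  have hn' : (2 : ℝ) ≤ n := by exact_mod_cast hn
  have hn0 : (n : ℝ) ≠ 0 := by
    have : (0 : ℝ) < (n : ℝ) := by linarith
    exact this.ne'
  have hn1 : (n : ℝ) - 1 ≠ 0 := by
    have : (0 : ℝ) < (n : ℝ) - 1 := by linarith
    exact this.ne'
  rw [Real.log_mul (by norm_num) hn0]
  field_simp
  ring

theorem main : ∀ ε : ℝ, 0 < ε → ∀ᶠ n : ℕ in atTop, ∀ a b : ℝ, 1 / 3 ≤ a → a ≤ b → b ≤ 2 * n →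
  ENNReal.ofReal ((1 - ε) * (2 * Real.pi * Real.log (b / a) / n)) ≤
    volume {c : ℂ | a ≤ (n : ℝ) * ‖c‖ ^ (n - 1) ∧ (n : ℝ) * ‖c‖ ^ (n - 1) ≤ b} ∧
  volume {c : ℂ | a ≤ (n : ℝ) * ‖c‖ ^ (n - 1) ∧ (n : ℝ) * ‖c‖ ^ (n - 1) ≤ b} ≤
    ENNReal.ofReal ((1 + ε) * (2 * Real.pi * Real.log (b / a) / n)) := by
  intro ε hε
  have hup : Tendsto (fun n : ℕ => Real.exp (2 * (1 / ((n : ℝ) - 1) * Real.log 2)) *
      ((n : ℝ) * (1 / ((n : ℝ) - 1)))) atTop (𝓝 1) := by
    have h1 : Tendsto (fun n : ℕ => 2 * (1 / ((n : ℝ) - 1) * Real.log 2)) atTop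
        (𝓝 (2 * (0 * Real.log 2))) := (tendsto_e.mul_const _).const_mul _
    rw [zero_mul, mul_zero] at h1
    have h2 := (Real.continuous_exp.tendsto 0).comp h1
    rw [Real.exp_zero] at h2
    have h3 := h2.mul tendsto_ne
    rw [one_mul] at h3
    exact h3
  have hev1 := hup.eventually (gt_mem_nhds (show (1 : ℝ) < 1 + ε by linarith))
  have hev2 := tendsto_elog.eventually (gt_mem_nhds (show (0 : ℝ) < ε / 2 by linarith))
  filter_upwards [hev1, hev2, eventually_ge_atTop 2] with n h1 h2 hn a b ha hab hb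
  have hn' : (2 : ℝ) ≤ n := by exact_mod_cast hn
  have hn0 : (0 : ℝ) < n := by linarith
  have hn1 : (0 : ℝ) < (n : ℝ) - 1 := by linarith
  have ha0 : 0 < a := by linarith
  have hb0 : 0 < b := by linarith
  obtain ⟨R, r, hr0, hR0, hR, hr, harea⟩ := area hn ha0 hab
  rw [harea]
  obtain ⟨e, he⟩ : ∃ e : ℝ, e = 1 / ((n : ℝ) - 1) := ⟨_, rfl⟩
  rw [← he] at h1 h2 hR hr
  have he0 : 0 < e := by rw [he]; positivity
  obtain ⟨l, hl⟩ : ∃ l : ℝ, l = Real.log (b / a) := ⟨_, rfl⟩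
  rw [← hl]
  have hl0 : 0 ≤ l := by
    rw [hl]
    exact Real.log_nonneg (by rw [le_div_iff₀ ha0]; linarith)
  have hlog : Real.log (b / n) = Real.log (a / n) + l := by
    rw [hl, ← Real.log_mul (by positivity) (by positivity)]
    congr 1
    field_simp
  have hee : 1 ≤ n * e := by
    rw [he, mul_one_div, le_div_iff₀ hn1]
    linarith
  have hR2 : R ^ 2 = Real.exp (2 * (e * Real.log (b / n))) := by
    rw [hR, ← Real.exp_nat_mul]
    norm_num
  have hr2 : r ^ 2 = Real.exp (2 * (e * Real.log (a / n))) := by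
    rw [hr, ← Real.exp_nat_mul]
    norm_num
  have hRr : R ^ 2 = r ^ 2 * Real.exp (2 * (e * l)) := by
    rw [hR2, hr2, ← Real.exp_add, hlog]
    congr 1
    ring
  have hrR : r ^ 2 = R ^ 2 * Real.exp (-(2 * (e * l))) := by
    rw [hRr, mul_assoc, ← Real.exp_add, add_neg_cancel, Real.exp_zero, mul_one]
  have hel : 0 ≤ e * l := by positivity
  constructor
  · apply ENNReal.ofReal_le_ofReal
    have h3 : 1 - ε ≤ r ^ 2 := by
      have h4 := Real.add_one_le_exp (2 * (e * Real.log (a / n)))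
      have h5 : -Real.log (3 * n) ≤ Real.log (a / n) := by
        rw [← Real.log_inv]
        apply Real.log_le_log (by positivity)
        rw [mul_inv, div_eq_mul_inv]
        gcongr
        linarith
      have h6 : e * (-Real.log (3 * n)) ≤ e * Real.log (a / n) :=
        mul_le_mul_of_nonneg_left h5 he0.le
      rw [hr2]
      linarith
    have h7 := Real.add_one_le_exp (2 * (e * l))
    have h8 : r ^ 2 * (2 * (e * l)) ≤ R ^ 2 - r ^ 2 := by
      rw [hRr]
      nlinarith [sq_nonneg r]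
    have h9 : l / n ≤ e * l := by
      rw [div_le_iff₀ hn0]
      nlinarith
    have h10 : (1 - ε) * (l / n) ≤ r ^ 2 * (e * l) := by
      have h11 : 0 ≤ l / n := by positivity
      calc (1 - ε) * (l / n) ≤ r ^ 2 * (l / n) := mul_le_mul_of_nonneg_right h3 h11
        _ ≤ r ^ 2 * (e * l) := mul_le_mul_of_nonneg_left h9 (sq_nonneg _)
    calc (1 - ε) * (2 * Real.pi * l / n) = Real.pi * (2 * ((1 - ε) * (l / n))) := by ring
      _ ≤ Real.pi * (R ^ 2 - r ^ 2) := by
        apply mul_le_mul_of_nonneg_left _ Real.pi_pos.le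
        linarith
  · apply ENNReal.ofReal_le_ofReal
    have h3 : R ^ 2 ≤ Real.exp (2 * (e * Real.log 2)) := by
      rw [hR2]
      apply Real.exp_le_exp.2
      have h4 : Real.log (b / n) ≤ Real.log 2 := by
        apply Real.log_le_log (by positivity)
        rw [div_le_iff₀ hn0]
        linarith
      have := mul_le_mul_of_nonneg_left h4 he0.le
      linarith
    have h5 := Real.add_one_le_exp (-(2 * (e * l)))
    have h6 : R ^ 2 - r ^ 2 ≤ R ^ 2 * (2 * (e * l)) := by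
      rw [hrR]
      nlinarith [sq_nonneg R]
    have h7 : R ^ 2 * (2 * (e * l)) ≤ Real.exp (2 * (e * Real.log 2)) * (2 * (e * l)) :=
      mul_le_mul_of_nonneg_right h3 (by positivity)
    have h8 : Real.exp (2 * (e * Real.log 2)) * (2 * (e * l)) =
        (Real.exp (2 * (e * Real.log 2)) * (n * e)) * (2 * l / n) := by
      field_simp
    have h9 : (Real.exp (2 * (e * Real.log 2)) * (n * e)) * (2 * l / n) ≤
        (1 + ε) * (2 * l / n) := mul_le_mul_of_nonneg_right h1.le (by positivity)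
    calc Real.pi * (R ^ 2 - r ^ 2) ≤ Real.pi * ((1 + ε) * (2 * l / n)) := by
          apply mul_le_mul_of_nonneg_left _ Real.pi_pos.le
          linarith
      _ = (1 + ε) * (2 * Real.pi * l / n) := by ring

end Pool.Agent.N9.AZ.AnuM
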