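import Pool.Agent.N228.AZ.Stm
import Pool.Agent.N9.AZ.AnuM

/-!
# AZ/ANU (for helper228)
-/

set_option autoImplicit false

namespace Pool.Agent.N9.AZ.Anu

theorem main : Pool.Agent.N228.AZ.P_ANU := Pool.Agent.N9.AZ.AnuM.main

end Pool.Agent.N9.AZ.Anu
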